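import Mathlib

/-!
Project GR (MP_646035_al): the set of exponential growth rates of the linear group
`F_2^3 wr Z` is not well-ordered.  Definitions.
-/

namespace Pool.Agent.L7h54.GR

open Finset Filter Topology
open scoped symmDiff

/-! ### Growth rates of groups -/

/-- The elements of word length at most `n` with respect to `S ∪ S⁻¹`. -/
def ball {G : Type} [Group G] (S : Finset G) (n : ℕ) : Set G :=
  {g | ∃ l : List G, l.length ≤ n ∧ (∀ s ∈ l, s ∈ S ∨ s⁻¹ ∈ S) ∧ l.prod = g}

/-- `e` is the growth rate `lim |B_S(n)|^(1/n)`. -/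
def IsRate {G : Type} [Group G] (S : Finset G) (e : ℝ) : Prop :=
  Tendsto (fun n : ℕ => (Nat.card (ball S n) : ℝ) ^ ((1 : ℝ) / (n : ℝ))) atTop (𝓝 e)

/-- The set of growth rates of `G` with respect to its finite generating sets. -/
def rates (G : Type) [Group G] : Set ℝ :=
  {e | ∃ S : Finset G, Subgroup.closure (S : Set G) = ⊤ ∧ IsRate S e}

/-! ### The group: three lamps at each integer -/

/-- Shift of a finite set of integers. -/
def sh (n : ℤ) (s : Finset ℤ) : Finset ℤ := s.map (addLeftEmbedding n)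

theorem mem_sh {n y : ℤ} {s : Finset ℤ} : y ∈ sh n s ↔ y - n ∈ s := by
  unfold sh
  simp only [Finset.mem_map, addLeftEmbedding_apply]
  constructor
  · rintro ⟨a, ha, rfl⟩
    simpa using ha
  · intro h
    exact ⟨y - n, h, by ring⟩

/-- Elements of `F_2^3 wr Z`: the three finite sets of lit lamps and the position. -/
@[ext] structure LL where
  c : Finset ℤ
  h : Finset ℤ
  q : Finset ℤ
  m : ℤ
deriving DecidableEq

namespace LL

instance : Mul LL := ⟨fun x y => ⟨x.c ∆ sh x.m y.c, x.h ∆ sh x.m y.h, x.q ∆ sh x.m y.q, x.m + y.m⟩⟩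
instance : One LL := ⟨⟨∅, ∅, ∅, 0⟩⟩
instance : Inv LL := ⟨fun x => ⟨sh (-x.m) x.c, sh (-x.m) x.h, sh (-x.m) x.q, -x.m⟩⟩

@[simp] theorem mul_c (x y : LL) : (x * y).c = x.c ∆ sh x.m y.c := rfl
@[simp] theorem mul_h (x y : LL) : (x * y).h = x.h ∆ sh x.m y.h := rfl
@[simp] theorem mul_q (x y : LL) : (x * y).q = x.q ∆ sh x.m y.q := rfl
@[simp] theorem mul_m (x y : LL) : (x * y).m = x.m + y.m := rfl
@[simp] theorem one_c : (1 : LL).c = ∅ := rfl
@[simp] theorem one_h : (1 : LL).h = ∅ := rfl
@[simp] theorem one_q : (1 : LL).q = ∅ := rfl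
@[simp] theorem one_m : (1 : LL).m = 0 := rfl
@[simp] theorem inv_c (x : LL) : (x⁻¹).c = sh (-x.m) x.c := rfl
@[simp] theorem inv_h (x : LL) : (x⁻¹).h = sh (-x.m) x.h := rfl
@[simp] theorem inv_q (x : LL) : (x⁻¹).q = sh (-x.m) x.q := rfl
@[simp] theorem inv_m (x : LL) : (x⁻¹).m = -x.m := rfl

end LL

theorem sh_sh (a b : ℤ) (s : Finset ℤ) : sh a (sh b s) = sh (a + b) s := by
  ext y
  simp only [mem_sh]
  rw [show y - a - b = y - (a + b) by ring]

@[simp] theorem sh_zero (s : Finset ℤ) : sh 0 s = s := by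
  ext y
  simp [mem_sh]

@[simp] theorem sh_empty (n : ℤ) : sh n ∅ = ∅ := by
  ext y
  simp [mem_sh]

@[simp] theorem sh_singleton (n a : ℤ) : sh n {a} = {n + a} := by
  ext y
  simp only [mem_sh, mem_singleton]
  omega

theorem sh_symm (n : ℤ) (s t : Finset ℤ) : sh n (s ∆ t) = sh n s ∆ sh n t := by
  ext y
  simp only [mem_sh, mem_symmDiff]

instance : Group LL where
  mul_assoc x y z := by
    ext1 <;> simp only [LL.mul_c, LL.mul_h, LL.mul_q, LL.mul_m, sh_symm, sh_sh, symmDiff_assoc,
      add_assoc]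
  one_mul x := by
    ext1 <;> simp
  mul_one x := by
    ext1 <;> simp
  inv_mul_cancel x := by
    ext1 <;> simp

/-! ### The generating sets -/

/-- Letters of type 1: light the lamp `c` at the current place, change the lamps `h`, `q` at
the current place if we like, then move one step to the right. -/
def up (u w : Bool) : LL := ⟨{0}, if u then {0} else ∅, if w then {0} else ∅, 1⟩

/-- Letters of type 0: change the lamp `h` at distance `k` and the lamp `q` at distance one if we
like, then move one step to the right. -/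
def lo (k : ℕ) (v z : Bool) : LL := ⟨∅, if v then {(k : ℤ)} else ∅, if z then {1} else ∅, 1⟩

/-- Change the lamp `h` here. -/
def th : LL := ⟨∅, {0}, ∅, 0⟩
/-- Change the lamp `q` here. -/
def tq : LL := ⟨∅, ∅, {0}, 0⟩

/-- The generating set `S_k` (ten elements). -/
def gen (k : ℕ) : Finset LL :=
  (univ : Finset (Bool × Bool)).image (fun p => up p.1 p.2) ∪
    (univ : Finset (Bool × Bool)).image (fun p => lo k p.1 p.2) ∪ {th, tq}

/-! ### The partition functions -/

/-- weight of the bond from `y - j` to `y` for the set `s`. -/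
noncomputable def bd (x : ℝ) (s : Finset ℤ) (j y : ℤ) : ℝ := if y - j ∈ s ∧ y ∉ s then 1 + x else 2

/-- weight of a set. -/
noncomputable def wt (k : ℕ) (a b : ℤ) (x : ℝ) (s : Finset ℤ) : ℝ :=
  (∏ y ∈ Ico (a + 1) b, bd x s 1 y) * ∏ y ∈ Ico (a + k) b, bd x s k y

/-- The partition function of the interval `[0, N)`. -/
noncomputable def P (k N : ℕ) (x : ℝ) : ℝ := ∑ s ∈ (Ico (0 : ℤ) N).powerset, wt k 0 N x s

/-- weight of a bond in the cyclic model. -/
noncomputable def W (x : ℝ) (a b : Bool) : ℝ := if a = true ∧ b = false then 1 + x else 2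

/-- The partition function of the circulant graph `Z/N` with shifts `1`, `k`. -/
noncomputable def Cy (k N : ℕ) [NeZero N] (x : ℝ) : ℝ :=
  ∑ s : ZMod N → Bool, ∏ y : ZMod N, W x (s y) (s (y + 1)) * W x (s y) (s (y + k))

/-- Ising weight. -/
noncomputable def r (ρ : ℝ) (a b : Bool) : ℝ := if a = b then 1 else ρ

/-- The Ising partition function of the circulant graph. -/
noncomputable def D (k N : ℕ) [NeZero N] (ρ : ℝ) : ℝ :=
  ∑ s : ZMod N → Bool, ∏ y : ZMod N, r ρ (s y) (s (y + 1)) * r ρ (s y) (s (y + k))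

/-! ### The cost function -/

/-- `z` lies strictly between the origin and `m` (as an edge). -/
def ins (m z : ℤ) : Prop := min 0 m ≤ z ∧ z < max 0 m

instance (m z : ℤ) : Decidable (ins m z) := by unfold ins; infer_instance

/-- the edge `z` serves the lamps `h`, `q` at `z`. -/
def svU (c : Finset ℤ) (a b m z : ℤ) : Prop := a ≤ z ∧ z < b ∧ (¬ ins m z ∨ z ∈ c)
/-- the edge `z` serves the lamps `h` at `z + k` and `q` at `z + 1`. -/
def svL (c : Finset ℤ) (a b m z : ℤ) : Prop := a ≤ z ∧ z < b ∧ (¬ ins m z ∨ z ∉ c)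

instance (c : Finset ℤ) (a b m z : ℤ) : Decidable (svU c a b m z) := by unfold svU; infer_instance
instance (c : Finset ℤ) (a b m z : ℤ) : Decidable (svL c a b m z) := by unfold svL; infer_instance

/-- the lit lamps (at distance `j`) which are not served. -/
def uns (j : ℤ) (c f : Finset ℤ) (a b m : ℤ) : Finset ℤ :=
  f.filter (fun y => ¬ svU c a b m y ∧ ¬ svL c a b m (y - j))

/-- `g` has cost at most `n`. -/
def R (k : ℕ) (g : LL) (n : ℕ) : Prop :=
  ∃ a b : ℤ, a ≤ 0 ∧ a ≤ g.m ∧ 0 ≤ b ∧ g.m ≤ b ∧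
    g.c ⊆ Ico a b ∧ g.h ⊆ Icc a (b + k) ∧ g.q ⊆ Icc a (b + 1) ∧
    2 * (b - a) - |g.m| + ((uns k g.c g.h a b g.m).card : ℤ) +
      ((uns 1 g.c g.q a b g.m).card : ℤ) ≤ n

/-! ### Ising model on a graph and its double covers -/

/-- The partition function of the double cover with twist `t`. -/
noncomputable def Zt {V B : Type} [Fintype V] [DecidableEq V] [Fintype B] (ρ : ℝ)
    (a b : B → V) (t : B → Bool) : ℝ :=
  ∑ s : V → Bool, ∑ s' : V → Bool, ∏ e : B,
    (if t e then r ρ (s (a e)) (s' (b e)) * r ρ (s' (a e)) (s (b e))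
      else r ρ (s (a e)) (s (b e)) * r ρ (s' (a e)) (s' (b e)))

end Pool.Agent.L7h54.GR
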