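import Pool.Agent.L7h54.GR.One

namespace Pool.Agent.L7h54.GR

open Finset Filter Topology

/-- The descending sequence. -/
theorem seq_of (hF : S_FEK) (hO : S_ONE) : ∃ (κ : ℕ → ℕ) (e : ℕ → ℝ), StrictMono κ ∧
    StrictAnti e ∧ ∀ i, 1 ≤ κ i ∧ 4 ≤ e i ∧ IsRate (gen (κ i)) (e i) := by
  have hrate : ∀ k : ℕ, ∃ e : ℝ, IsRate (gen k) e := fun k => by
    obtain ⟨-, ⟨e, -, he⟩, -, -⟩ := hF LL (gen k)
    exact ⟨e, he⟩
  choose E hE using hrate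
  have hstep : ∀ k : {k : ℕ // 1 ≤ k}, ∃ k' : {k : ℕ // 1 ≤ k}, k.1 < k'.1 ∧ E k'.1 < E k.1 ∧
      4 ≤ E k.1 := by
    rintro ⟨k, hk⟩
    obtain ⟨k', h1, h2⟩ := hO k hk
    obtain ⟨h3, h4⟩ := h2 (E k) (E k') (hE k) (hE k')
    exact ⟨⟨k', by omega⟩, h1, h3, h4⟩
  choose nx h1 h2 h3 using hstep
  refine ⟨fun i => (nx^[i] ⟨1, le_rfl⟩).1, fun i => E (nx^[i] ⟨1, le_rfl⟩).1, ?_, ?_, ?_⟩
  · apply strictMono_nat_of_lt_succ
    intro i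
    rw [Function.iterate_succ_apply']
    exact h1 _
  · apply strictAnti_nat_of_succ_lt
    intro i
    rw [Function.iterate_succ_apply']
    exact h2 _
  · intro i
    exact ⟨(nx^[i] ⟨1, le_rfl⟩).2, h3 _, hE _⟩

theorem not_wf (hG : S_GEN) (hF : S_FEK) (hO : S_ONE) : ¬ (rates LL).IsWF := by
  obtain ⟨κ, e, -, he, h⟩ := seq_of hF hO
  intro hwf
  rw [Set.isWF_iff_no_descending_seq] at hwf
  exact hwf e he (fun i => ⟨gen (κ i), (hG _).1, (h i).2.2⟩)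

end Pool.Agent.L7h54.GR
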