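import Pool.Agent.L7h54.GR.Stm

namespace Pool.Agent.L7h54.GR

open Finset
open scoped symmDiff

theorem sd_empty (s : Finset ℤ) : s ∆ ∅ = s := symmDiff_bot s

/-- pure translation. -/
def tr (n : ℤ) : LL := ⟨∅, ∅, ∅, n⟩

theorem tr_mul (a b : ℤ) : tr a * tr b = tr (a + b) := by
  ext1 <;> simp [tr]

theorem tr_zpow (n : ℤ) : (tr 1) ^ n = tr n := by
  have h0 : ∀ n : ℕ, (tr 1) ^ n = tr n := by
    intro n
    induction n with
    | zero => rfl
    | succ n ih => rw [pow_succ, ih, tr_mul]; push_cast; rfl
  have hinv : ∀ a : ℤ, (tr a)⁻¹ = tr (-a) := by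
    intro a
    ext1 <;> simp [tr]
  cases n with
  | ofNat n => simpa using h0 n
  | negSucc n =>
    rw [zpow_negSucc, h0, hinv]
    rfl

theorem s_GEN : S_GEN := by
  intro k
  refine ⟨?_, ?_⟩
  · set H := Subgroup.closure (gen k : Set LL) with hH
    have hsub : ∀ g ∈ gen k, g ∈ H := fun g hg => Subgroup.subset_closure hg
    have ht : tr 1 ∈ H := by
      apply hsub
      unfold gen
      simp only [mem_union, mem_image, mem_univ, true_and]
      exact Or.inl (Or.inr ⟨(false, false), by simp [lo, tr]⟩)
    have htr : ∀ n : ℤ, tr n ∈ H := by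
      intro n
      rw [← tr_zpow]
      exact H.zpow_mem ht n
    have hup : up false false ∈ H := by
      apply hsub
      unfold gen
      simp only [mem_union, mem_image, mem_univ, true_and]
      exact Or.inl (Or.inl ⟨(false, false), rfl⟩)
    have hth : th ∈ H := by
      apply hsub
      unfold gen
      simp
    have htq : tq ∈ H := by
      apply hsub
      unfold gen
      simp
    have hc : ∀ s : Finset ℤ, (⟨s, ∅, ∅, 0⟩ : LL) ∈ H := by
      intro s
      induction s using Finset.induction_on with
      | empty => exact H.one_mem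
      | insert y s hy ih =>
        have h1 : (⟨{y}, ∅, ∅, 0⟩ : LL) = tr y * (up false false * tr (-1)) * tr (-y) := by
          ext1 <;> simp [tr, up, sd_empty]
        have h2 : (⟨insert y s, ∅, ∅, 0⟩ : LL) = ⟨{y}, ∅, ∅, 0⟩ * ⟨s, ∅, ∅, 0⟩ := by
          ext1 <;> simp
          ext z
          simp only [mem_insert, mem_symmDiff, mem_singleton]
          constructor
          · rintro (rfl | h)
            · exact Or.inl ⟨rfl, hy⟩
            · exact Or.inr ⟨h, fun hz => hy (hz ▸ h)⟩
          · rintro (h | h)
            · exact Or.inl h.1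
            · exact Or.inr h.1
        rw [h2, h1]
        exact H.mul_mem (H.mul_mem (H.mul_mem (htr _) (H.mul_mem hup (htr _))) (htr _)) ih
    have hh : ∀ s : Finset ℤ, (⟨∅, s, ∅, 0⟩ : LL) ∈ H := by
      intro s
      induction s using Finset.induction_on with
      | empty => exact H.one_mem
      | insert y s hy ih =>
        have h1 : (⟨∅, {y}, ∅, 0⟩ : LL) = tr y * th * tr (-y) := by
          ext1 <;> simp [tr, th]
        have h2 : (⟨∅, insert y s, ∅, 0⟩ : LL) = ⟨∅, {y}, ∅, 0⟩ * ⟨∅, s, ∅, 0⟩ := by
          ext1 <;> simp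
          ext z
          simp only [mem_insert, mem_symmDiff, mem_singleton]
          constructor
          · rintro (rfl | h)
            · exact Or.inl ⟨rfl, hy⟩
            · exact Or.inr ⟨h, fun hz => hy (hz ▸ h)⟩
          · rintro (h | h)
            · exact Or.inl h.1
            · exact Or.inr h.1
        rw [h2, h1]
        exact H.mul_mem (H.mul_mem (H.mul_mem (htr _) hth) (htr _)) ih
    have hq : ∀ s : Finset ℤ, (⟨∅, ∅, s, 0⟩ : LL) ∈ H := by
      intro s
      induction s using Finset.induction_on with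
      | empty => exact H.one_mem
      | insert y s hy ih =>
        have h1 : (⟨∅, ∅, {y}, 0⟩ : LL) = tr y * tq * tr (-y) := by
          ext1 <;> simp [tr, tq]
        have h2 : (⟨∅, ∅, insert y s, 0⟩ : LL) = ⟨∅, ∅, {y}, 0⟩ * ⟨∅, ∅, s, 0⟩ := by
          ext1 <;> simp
          ext z
          simp only [mem_insert, mem_symmDiff, mem_singleton]
          constructor
          · rintro (rfl | h)
            · exact Or.inl ⟨rfl, hy⟩
            · exact Or.inr ⟨h, fun hz => hy (hz ▸ h)⟩
          · rintro (h | h)
            · exact Or.inl h.1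
            · exact Or.inr h.1
        rw [h2, h1]
        exact H.mul_mem (H.mul_mem (H.mul_mem (htr _) htq) (htr _)) ih
    rw [eq_top_iff]
    rintro ⟨c, h, q, m⟩ -
    have h3 : (⟨c, h, q, m⟩ : LL) = ⟨c, ∅, ∅, 0⟩ * ⟨∅, h, ∅, 0⟩ * ⟨∅, ∅, q, 0⟩ * tr m := by
      ext1 <;> simp [tr, sd_empty]
    rw [h3]
    exact H.mul_mem (H.mul_mem (H.mul_mem (hc c) (hh h)) (hq q)) (htr m)
  · unfold gen
    refine (card_union_le _ _).trans ?_
    have h1 := card_union_le ((univ : Finset (Bool × Bool)).image (fun p => up p.1 p.2))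
      ((univ : Finset (Bool × Bool)).image (fun p => lo k p.1 p.2))
    have h2 : ((univ : Finset (Bool × Bool)).image (fun p => up p.1 p.2)).card ≤ 4 :=
      card_image_le.trans (by simp)
    have h3 : ((univ : Finset (Bool × Bool)).image (fun p => lo k p.1 p.2)).card ≤ 4 :=
      card_image_le.trans (by simp)
    have h4 : ({th, tq} : Finset LL).card ≤ 2 := card_le_two
    omega

end Pool.Agent.L7h54.GR
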