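import Pool.Agent.L7h54.GR.Stm

namespace Pool.Agent.L7h54.GR

open Finset

theorem fac (ρ : ℝ) (t u w α β : Bool) :
    (if t then r ρ u (xor w β) * r ρ (xor u α) w else r ρ u w * r ρ (xor u α) (xor w β)) =
      if α = β then gw (ρ ^ 2) (xor (xor u w) (t && α)) else ρ := by
  cases t <;> cases u <;> cases w <;> cases α <;> cases β <;> simp [r, gw, pow_two]

/-- xor with a fixed function. -/
def xe {V : Type} (s : V → Bool) : (V → Bool) ≃ (V → Bool) where
  toFun τ := fun v => xor (s v) (τ v)
  invFun τ := fun v => xor (s v) (τ v)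
  left_inv τ := by
    funext v
    simp
  right_inv τ := by
    funext v
    simp

theorem sum_tw {V : Type} [Fintype V] [DecidableEq V] (F : (V → Bool) → (V → Bool) → ℝ) :
    ∑ s : V → Bool, ∑ s' : V → Bool, F s s' =
      ∑ τ : V → Bool, ∑ s : V → Bool, F s (fun v => xor (s v) (τ v)) := by
  rw [Finset.sum_comm (s := (univ : Finset (V → Bool)))
    (f := fun τ s => F s (fun v => xor (s v) (τ v)))]
  apply Finset.sum_congr rfl
  intro s _
  exact (Equiv.sum_comp (xe s) (fun s' => F s s')).symm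

theorem prod_split {V B : Type} [Fintype V] [DecidableEq V] [Fintype B] [DecidableEq B]
    (a b : B → V) (ρ : ℝ) (τ : V → Bool) (G : B → ℝ) :
    ∏ e : B, (if τ (a e) = τ (b e) then G e else ρ) =
      ρ ^ (univ.filter (fun e => ¬ τ (a e) = τ (b e))).card *
        ∏ e ∈ univ.filter (fun e => τ (a e) = τ (b e)), G e := by
  rw [Finset.prod_ite, Finset.prod_const, mul_comm]

theorem dl_nonneg {q : ℝ} (hq : 0 < q) (hq1 : q < 1) (n : ℕ) : 0 ≤ dl q n := by
  unfold dl
  have h0 : 0 ≤ (1 - q) / (1 + q) := div_nonneg (by linarith) (by linarith)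
  have h1 : (1 - q) / (1 + q) ≤ 1 := by
    rw [div_le_one (by linarith)]
    linarith
  have h2 := pow_nonneg h0 n
  have h3 := pow_le_one₀ h0 h1 (n := n)
  exact div_nonneg (by linarith) (by linarith)

theorem dl_lt_one {q : ℝ} (hq : 0 < q) (hq1 : q < 1) (n : ℕ) : dl q n < 1 := by
  unfold dl
  have h0 : 0 < (1 - q) / (1 + q) := div_pos (by linarith) (by linarith)
  have h2 := pow_pos h0 n
  rw [div_lt_one (by linarith)]
  linarith

theorem s_KEY (h1 : S_INN) (h2 : S_OUT) : S_KEY := by
  intro V B _ _ _ _ a b t ρ n R Vi E hρ hρ1 hdis hcard hdeg hE hEn hcyc hodd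
  have hq : 0 < ρ ^ 2 := by positivity
  have hq1 : ρ ^ 2 < 1 := by nlinarith
  have hdl0 := dl_nonneg hq hq1 n
  have hdl1 := dl_lt_one hq hq1 n
  -- the twisted partition function
  have e1 : Zt ρ a b t = ∑ τ : V → Bool,
      ρ ^ (univ.filter (fun e => ¬ τ (a e) = τ (b e))).card *
      ∑ s : V → Bool, ∏ e ∈ univ.filter (fun e => τ (a e) = τ (b e)),
        gw (ρ ^ 2) (xor (xor (s (a e)) (s (b e))) (t e && τ (a e))) := by
    unfold Zt
    rw [sum_tw]
    apply Finset.sum_congr rfl
    intro τ _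
    rw [Finset.mul_sum]
    apply Finset.sum_congr rfl
    intro s _
    rw [← prod_split]
    apply Finset.prod_congr rfl
    intro e _
    exact fac ρ (t e) (s (a e)) (s (b e)) (τ (a e)) (τ (b e))
  have e2 : ∑ s : V → Bool, ∑ s' : V → Bool,
      (∏ e : B, r ρ (s (a e)) (s (b e)) * r ρ (s' (a e)) (s' (b e))) *
        dl (ρ ^ 2) n ^ ((range R).filter (fun i => ∀ v ∈ Vi i, s' v ≠ s v)).card =
      ∑ τ : V → Bool, (ρ ^ (univ.filter (fun e => ¬ τ (a e) = τ (b e))).card *
      ∑ s : V → Bool, ∏ e ∈ univ.filter (fun e => τ (a e) = τ (b e)),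
        gw (ρ ^ 2) (xor (s (a e)) (s (b e)))) *
        dl (ρ ^ 2) n ^ ((range R).filter (fun i => ∀ v ∈ Vi i, τ v = true)).card := by
    rw [sum_tw]
    apply Finset.sum_congr rfl
    intro τ _
    rw [Finset.mul_sum, Finset.sum_mul]
    apply Finset.sum_congr rfl
    intro s _
    rw [← prod_split]
    have hp : ∏ e : B, r ρ (s (a e)) (s (b e)) *
        r ρ (xor (s (a e)) (τ (a e))) (xor (s (b e)) (τ (b e))) =
        ∏ e : B, (if τ (a e) = τ (b e) then gw (ρ ^ 2) (xor (s (a e)) (s (b e))) else ρ) := by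
      apply Finset.prod_congr rfl
      intro e _
      have := fac ρ false (s (a e)) (s (b e)) (τ (a e)) (τ (b e))
      simpa using this
    have hf : (range R).filter (fun i => ∀ v ∈ Vi i, xor (s v) (τ v) ≠ s v) =
        (range R).filter (fun i => ∀ v ∈ Vi i, τ v = true) := by
      apply Finset.filter_congr
      intro i _
      apply forall_congr'
      intro v
      apply imp_congr_right
      intro _
      generalize s v = x
      generalize τ v = y
      cases x <;> cases y <;> simp
    rw [hp, hf]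
  have e3 : ∑ s : V → Bool, ∑ s' : V → Bool,
        ∏ e : B, r ρ (s (a e)) (s (b e)) * r ρ (s' (a e)) (s' (b e)) =
      (∑ s : V → Bool, ∏ e : B, r ρ (s (a e)) (s (b e))) ^ 2 := by
    rw [pow_two, Finset.sum_mul_sum]
    apply Finset.sum_congr rfl
    intro s _
    apply Finset.sum_congr rfl
    intro s' _
    rw [Finset.prod_mul_distrib]
  have h3 := h2 V B a b ρ (dl (ρ ^ 2) n) n R Vi hρ hρ1 hdl0 hdl1.le hdis hcard hdeg
  rw [e2, e3] at h3
  refine le_trans ?_ h3
  rw [e1]
  apply Finset.sum_le_sum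
  intro τ _
  rw [mul_assoc]
  apply mul_le_mul_of_nonneg_left _ (by positivity)
  rw [mul_comm (∑ s : V → Bool, _)]
  have := h1 V B ℕ a b (fun e => t e && τ (a e)) (ρ ^ 2) n
    (univ.filter (fun e => τ (a e) = τ (b e)))
    ((range R).filter (fun i => ∀ v ∈ Vi i, τ v = true)) E hq hq1 ?_ ?_ ?_ ?_ ?_
  · exact this
  · intro i hi e he
    simp only [mem_filter, mem_range, mem_univ, true_and] at hi ⊢
    obtain ⟨ha, hb⟩ := hE i hi.1 e he
    rw [hi.2 _ ha, hi.2 _ hb]
  · intro i hi j hj hij
    simp only [mem_filter, mem_range] at hi hj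
    rw [Finset.disjoint_left]
    intro e he he'
    exact Finset.disjoint_left.1 (hdis i hi.1 j hj.1 hij) (hE i hi.1 e he).1 (hE j hj.1 e he').1
  · intro i hi
    simp only [mem_filter, mem_range] at hi
    exact hEn i hi.1
  · intro i hi
    simp only [mem_filter, mem_range] at hi
    exact hcyc i hi.1
  · intro i hi
    simp only [mem_filter, mem_range] at hi
    have : (E i).filter (fun e => (t e && τ (a e)) = true) =
        (E i).filter (fun e => t e = true) := by
      apply Finset.filter_congr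
      intro e he
      simp [hi.2 _ (hE i hi.1 e he).1]
    rw [this]
    exact hodd i hi.1

end Pool.Agent.L7h54.GR
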