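import Pool.Agent.L7h54.GR.Str

namespace Pool.Agent.L7h54.GR

open Finset Filter Topology

theorem pow_bdd {u C : ℝ} (h : ∀ j : ℕ, u ^ j ≤ C) : u ≤ 1 := by
  by_contra hu
  push Not at hu
  obtain ⟨j, hj⟩ := ((tendsto_pow_atTop_atTop_of_one_lt hu).eventually_gt_atTop C).exists
  exact absurd (h j) (not_le.2 hj)

theorem P_cont (k N : ℕ) : Continuous (fun x : ℝ => P k N x) := by
  unfold P wt bd
  refine continuous_finsetSum _ fun s _ => Continuous.mul ?_ ?_
  · refine continuous_finsetProd _ fun y _ => ?_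
    split_ifs <;> fun_prop
  · refine continuous_finsetProd _ fun y _ => ?_
    split_ifs <;> fun_prop

theorem Cy_cont (k N : ℕ) [NeZero N] : Continuous (fun x : ℝ => Cy k N x) := by
  unfold Cy W
  refine continuous_finsetSum _ fun s _ => ?_
  refine continuous_finsetProd _ fun y _ => Continuous.mul ?_ ?_
  · split_ifs <;> fun_prop
  · split_ifs <;> fun_prop

theorem P_pow (h : S_PSUP) {k : ℕ} {x : ℝ} (hk : 1 ≤ k) (h0 : 0 ≤ x) (h1 : x ≤ 1) (N j : ℕ) :
    P k N x ^ j ≤ P k (N * j) x := by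
  induction j with
  | zero => simpa using (h k x hk h0 h1).2.2 0
  | succ j ih =>
    have hN : 0 ≤ P k N x := zero_le_one.trans ((h k x hk h0 h1).2.2 N)
    calc P k N x ^ (j + 1) = P k N x ^ j * P k N x := pow_succ _ _
      _ ≤ P k (N * j) x * P k N x := mul_le_mul_of_nonneg_right ih hN
      _ ≤ P k (N * j + N) x := (h k x hk h0 h1).1 _ _
      _ = P k (N * (j + 1)) x := by ring_nf

/-- below the critical point `x^N P_N ≤ 1`. -/
theorem sub_crit (hF : S_FEK) (hL : S_LOW) (hS : S_PSUP) {k : ℕ} (hk : 1 ≤ k) {e x : ℝ}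
    (he : IsRate (gen k) e) (hx : 0 < x) (hx1 : x ≤ 1) (hxe : e * x < 1) (N : ℕ) :
    x ^ N * P k N x ≤ 1 := by
  obtain ⟨hfin, ⟨e0, he0, hr⟩, -, h4⟩ := hF LL (gen k)
  have hee : e = e0 := tendsto_nhds_unique he hr
  have he1 : 1 ≤ e := by rw [hee]; exact he0
  have h5 : e < 1 / x := by rw [lt_div_iff₀ hx]; exact hxe
  obtain ⟨y, hy1, hy2⟩ := exists_between h5
  obtain ⟨C, hC⟩ := h4 e y he hy1
  have hy0 : 0 < y := by linarith
  have hyx : y * x < 1 := by rwa [lt_div_iff₀ hx] at hy2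
  have hC0 : 0 ≤ C := by
    have := hC 0
    rw [pow_zero, mul_one] at this
    exact (Nat.cast_nonneg _).trans this
  have key : ∀ N : ℕ, x ^ N * P k N x ≤ C * (1 - y * x)⁻¹ := by
    intro N
    refine (hL k x hk hx hx1 N).trans ?_
    calc ∑ j ∈ range (3 * N + 1), (Nat.card (ball (gen k) j) : ℝ) * x ^ j
        ≤ ∑ j ∈ range (3 * N + 1), C * (y * x) ^ j := by
          apply Finset.sum_le_sum
          intro j _
          rw [mul_pow, ← mul_assoc]
          exact mul_le_mul_of_nonneg_right (hC j) (by positivity)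
      _ = C * ∑ j ∈ range (3 * N + 1), (y * x) ^ j := by rw [Finset.mul_sum]
      _ ≤ C * (1 - y * x)⁻¹ := by
          apply mul_le_mul_of_nonneg_left _ hC0
          rw [← tsum_geometric_of_lt_one (by positivity) hyx]
          exact (summable_geometric_of_lt_one (by positivity) hyx).sum_le_tsum _
            (fun i _ => by positivity)
  apply pow_bdd (C := C * (1 - y * x)⁻¹)
  intro j
  calc (x ^ N * P k N x) ^ j = x ^ (N * j) * P k N x ^ j := by rw [mul_pow, ← pow_mul]
    _ ≤ x ^ (N * j) * P k (N * j) x :=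
        mul_le_mul_of_nonneg_left (P_pow hS hk hx.le hx1 N j) (by positivity)
    _ ≤ _ := key _

theorem s_ONE (hF : S_FEK) (hU : S_UP) (hN : S_CNT) (hL : S_LOW) (hS : S_PSUP) (hY : S_CYC)
    (hM : S_SYM) (hD : S_DBL) (hT : S_STR) : S_ONE := by
  intro k hk
  obtain ⟨hfin, ⟨e, he1, he⟩, -, -⟩ := hF LL (gen k)
  have hepos : 0 < e := by linarith
  -- the growth rate is at least four
  have he4 : 4 ≤ e := by
    by_contra hlt
    push Not at hlt
    have h1 : (1 : ℝ) / 4 < 1 / e := one_div_lt_one_div_of_lt hepos hlt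
    obtain ⟨x, hx1, hx2⟩ := exists_between h1
    have hx0 : 0 < x := by linarith [show (0 : ℝ) < 1 / 4 by norm_num]
    have hex : e * x < 1 := by
      rw [lt_div_iff₀ hepos] at hx2
      linarith
    have hxle : x ≤ 1 := by nlinarith
    have h2 : 4 * x ≤ 1 := by
      apply pow_bdd (C := 2 ^ (k + 1))
      intro j
      have h3 := sub_crit hF hL hS hk he hx0 hxle hex j
      have h4 := (hS k x hk hx0.le hxle).2.1 j
      have h5 : x ^ j * ((4 : ℝ) ^ j / 2 ^ (k + 1)) ≤ 1 :=
        (mul_le_mul_of_nonneg_left h4 (by positivity)).trans h3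
      rw [← mul_div_assoc, div_le_one (by positivity)] at h5
      rw [mul_pow]
      linarith
    linarith
  set x0 : ℝ := 1 / e with hx0d
  have hx0 : 0 < x0 := by positivity
  have hx04 : x0 ≤ 1 / 4 := one_div_le_one_div_of_le (by norm_num) he4
  have hx01 : x0 ≤ 1 := by linarith
  -- at the critical point
  have hcrit : ∀ N : ℕ, x0 ^ N * P k N x0 ≤ 1 := by
    intro N
    have hc : Continuous (fun x : ℝ => x ^ N * P k N x) := (continuous_pow N).mul (P_cont k N)
    have ht : Tendsto (fun x : ℝ => x ^ N * P k N x) (𝓝[<] x0) (𝓝 (x0 ^ N * P k N x0)) :=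
      (hc.tendsto x0).mono_left nhdsWithin_le_nhds
    apply le_of_tendsto ht
    have h1 : ∀ᶠ x in 𝓝[<] x0, 0 < x := by
      apply Filter.Eventually.filter_mono nhdsWithin_le_nhds
      exact lt_mem_nhds hx0
    have h2 : ∀ᶠ x in 𝓝[<] x0, x < x0 := self_mem_nhdsWithin
    filter_upwards [h1, h2] with x hxa hxb
    apply sub_crit hF hL hS hk he hxa (by linarith)
    rw [hx0d, lt_div_iff₀ hepos] at hxb
    linarith
  -- strict inequality for the double cover
  set ρ : ℝ := Real.sqrt ((1 + x0) / 2) with hρd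
  have hρ0 : 0 < ρ := Real.sqrt_pos.2 (by linarith)
  have hρ1 : ρ < 1 := by
    rw [hρd, Real.sqrt_lt' one_pos]
    linarith
  obtain ⟨c, hc0, hc1, hc⟩ := hT k ρ hk hρ0 hρ1
  obtain ⟨R, hR⟩ := exists_pow_lt_of_lt_one (show (0 : ℝ) < 1 / 4 ^ (k + 1) by positivity) hc1
  set M := (k + 1) * (R + 1) with hMd
  have hkM : k < M := by
    rw [hMd]
    nlinarith
  have : NeZero M := ⟨by omega⟩
  have : NeZero (2 * M) := ⟨by omega⟩
  have hstr := hc R M hMd
  have hval : x0 ^ (2 * M) * Cy (k + M) (2 * M) x0 < 1 := by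
    rw [hM (k + M) (2 * M) x0 hx0.le hx01]
    have h1 := (hY k M x0 hk hkM hx0.le hx01).2
    rw [hM k M x0 hx0.le hx01] at h1
    have h2 : x0 ^ M * (4 ^ M * D k M ρ) ≤ 2 ^ (k + 1) := by
      calc x0 ^ M * (4 ^ M * D k M ρ) ≤ x0 ^ M * (2 ^ (k + 1) * P k M x0) :=
            mul_le_mul_of_nonneg_left h1 (by positivity)
        _ = 2 ^ (k + 1) * (x0 ^ M * P k M x0) := by ring
        _ ≤ 2 ^ (k + 1) * 1 := mul_le_mul_of_nonneg_left (hcrit M) (by positivity)
        _ = 2 ^ (k + 1) := mul_one _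
    have h3 : 0 ≤ x0 ^ M * (4 ^ M * D k M ρ) := by
      have : 0 ≤ D k M ρ := by
        unfold D r
        refine Finset.sum_nonneg fun s _ => Finset.prod_nonneg fun y _ => ?_
        apply mul_nonneg <;> split_ifs <;> linarith
      positivity
    calc x0 ^ (2 * M) * (4 ^ (2 * M) * D (k + M) (2 * M) ρ)
        ≤ x0 ^ (2 * M) * (4 ^ (2 * M) * (c ^ R * D k M ρ ^ 2)) := by
          apply mul_le_mul_of_nonneg_left _ (by positivity)
          exact mul_le_mul_of_nonneg_left hstr (by positivity)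
      _ = c ^ R * (x0 ^ M * (4 ^ M * D k M ρ)) ^ 2 := by
          rw [pow_mul', pow_mul']
          ring
      _ ≤ c ^ R * (2 ^ (k + 1)) ^ 2 := by
          apply mul_le_mul_of_nonneg_left _ (by positivity)
          exact pow_le_pow_left₀ h3 h2 2
      _ = c ^ R * 4 ^ (k + 1) := by
          rw [← pow_mul, mul_comm (k + 1) 2, pow_mul]
          norm_num
      _ < 1 := by
          rw [lt_div_iff₀ (by positivity)] at hR
          exact hR
  -- a point to the right of the critical point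
  have hx1 : ∃ x1 : ℝ, x0 < x1 ∧ x1 < 0.3 ∧ x1 ^ (2 * M) * Cy (k + M) (2 * M) x1 < 1 := by
    have hcc : Continuous (fun x : ℝ => x ^ (2 * M) * Cy (k + M) (2 * M) x) :=
      (continuous_pow _).mul (Cy_cont _ _)
    have h1 : ∀ᶠ x in 𝓝[>] x0, x ^ (2 * M) * Cy (k + M) (2 * M) x < 1 := by
      apply Filter.Eventually.filter_mono nhdsWithin_le_nhds
      exact (hcc.tendsto x0).eventually (gt_mem_nhds hval)
    have h2 : ∀ᶠ x in 𝓝[>] x0, x < (0.3 : ℝ) := by
      apply Filter.Eventually.filter_mono nhdsWithin_le_nhds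
      exact gt_mem_nhds (by norm_num; linarith)
    have h3 : ∀ᶠ x in 𝓝[>] x0, x0 < x := self_mem_nhdsWithin
    obtain ⟨x, hx⟩ := (h1.and (h2.and h3)).exists
    exact ⟨x, hx.2.2, hx.2.1, hx.1⟩
  obtain ⟨x1, hx1a, hx1b, hx1c⟩ := hx1
  have hx10 : 0 < x1 := hx0.trans hx1a
  have hx11 : x1 ≤ 1 := by norm_num at hx1b; linarith
  have hk' : 1 ≤ k + M := by omega
  -- doubling
  have hdoub : ∀ i : ℕ, ∃ (L : ℕ) (_ : NeZero L), L = 2 ^ i * (2 * M) ∧
      Cy (k + M) L x1 ≤ Cy (k + M) (2 * M) x1 ^ (2 ^ i) := by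
    intro i
    induction i with
    | zero => exact ⟨2 * M, inferInstance, by simp, by simp⟩
    | succ i ih =>
      obtain ⟨L, hL0, hL1, hL2⟩ := ih
      have : NeZero (2 * L) := ⟨by have := NeZero.ne L; omega⟩
      refine ⟨2 * L, inferInstance, by rw [hL1]; ring, ?_⟩
      have hP0 : 0 ≤ Cy (k + M) L x1 := by
        unfold Cy W
        refine Finset.sum_nonneg fun s _ => Finset.prod_nonneg fun y _ => ?_
        apply mul_nonneg <;> split_ifs <;> linarith
      set ρ1 : ℝ := Real.sqrt ((1 + x1) / 2) with hρ1d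
      have hρ10 : 0 < ρ1 := Real.sqrt_pos.2 (by linarith)
      have hρ11 : ρ1 < 1 := by
        rw [hρ1d, Real.sqrt_lt' one_pos]
        norm_num at hx1b
        linarith
      calc Cy (k + M) (2 * L) x1 = 4 ^ (2 * L) * D (k + M) (2 * L) ρ1 :=
            hM (k + M) (2 * L) x1 hx10.le hx11
        _ ≤ 4 ^ (2 * L) * D (k + M) L ρ1 ^ 2 :=
            mul_le_mul_of_nonneg_left (hD (k + M) L ρ1 hρ10 hρ11) (by positivity)
        _ = (4 ^ L * D (k + M) L ρ1) ^ 2 := by
            rw [pow_mul']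
            ring
        _ = Cy (k + M) L x1 ^ 2 := by rw [hM (k + M) L x1 hx10.le hx11]
        _ ≤ (Cy (k + M) (2 * M) x1 ^ (2 ^ i)) ^ 2 := pow_le_pow_left₀ hP0 hL2 2
        _ = _ := by rw [← pow_mul, pow_succ]
  set θ0 : ℝ := x1 ^ (2 * M) * Cy (k + M) (2 * M) x1 with hθ0d
  have hCyP : 1 ≤ Cy (k + M) (2 * M) x1 :=
    ((hS (k + M) x1 hk' hx10.le hx11).2.2 (2 * M)).trans
      (hY (k + M) (2 * M) x1 hk' (by omega) hx10.le hx11).1
  have hθ00 : 0 < θ0 := by positivity
  have hN0 : (0 : ℝ) < ((2 * M : ℕ) : ℝ) := by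
    have : 0 < 2 * M := by omega
    exact_mod_cast this
  set θ : ℝ := θ0 ^ ((1 : ℝ) / ((2 * M : ℕ) : ℝ)) with hθd
  have hθpos : 0 < θ := Real.rpow_pos_of_pos hθ00 _
  have hθlt : θ < 1 := Real.rpow_lt_one hθ00.le hx1c (by positivity)
  have hθpow : θ ^ (2 * M) = θ0 := by
    rw [hθd, ← Real.rpow_natCast, ← Real.rpow_mul hθ00.le, one_div,
      inv_mul_cancel₀ hN0.ne', Real.rpow_one]
  have hPθ : ∀ N : ℕ, x1 ^ N * P (k + M) N x1 ≤ θ ^ N := by
    intro N
    rcases Nat.eq_zero_or_pos N with rfl | hNpos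
    · have hE : Ico ((0 : ℤ) + ((k + M : ℕ) : ℤ)) ((0 : ℕ) : ℤ) = ∅ := by
        apply Finset.Ico_eq_empty
        push Not
        positivity
      have hE1 : Ico ((0 : ℤ) + 1) ((0 : ℕ) : ℤ) = ∅ := by
        apply Finset.Ico_eq_empty
        norm_num
      have hE0 : Ico (0 : ℤ) ((0 : ℕ) : ℤ) = ∅ := by simp
      have : P (k + M) 0 x1 = 1 := by
        unfold P wt
        rw [hE, hE1, hE0]
        simp
      simp [this]
    have hu0 : 0 ≤ x1 ^ N * P (k + M) N x1 := by
      have := (hS (k + M) x1 hk' hx10.le hx11).2.2 N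
      positivity
    have hη : x1 ^ N * P (k + M) N x1 / θ ^ N ≤ 1 := by
      by_contra hgt
      push Not at hgt
      have hbd : ∀ q0 : ℕ, (x1 ^ N * P (k + M) N x1 / θ ^ N) ^ q0 ≤ (x1 ^ N)⁻¹ := by
        intro q0
        -- choose i with 2^i * N0 / N ≥ q0
        obtain ⟨i, hi⟩ : ∃ i : ℕ, q0 * N ≤ 2 ^ i * (2 * M) :=
          ⟨q0 * N, (Nat.lt_two_pow_self (n := q0 * N)).le.trans
            (Nat.le_mul_of_pos_right _ (by omega))⟩
        obtain ⟨L, hL0, hL1, hL2⟩ := hdoub i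
        set q := L / N with hqd
        have hq0 : q0 ≤ q := by
          rw [hqd, Nat.le_div_iff_mul_le hNpos, hL1]
          exact hi
        have hLe : N * q + L % N = L := Nat.div_add_mod L N
        have hsN : L % N < N := Nat.mod_lt _ hNpos
        refine (pow_le_pow_right₀ hgt.le hq0).trans ?_
        have hkL : k + M < L := by
          rw [hL1]
          have : 1 ≤ 2 ^ i := Nat.one_le_two_pow
          nlinarith
        have h1 : x1 ^ L * P (k + M) L x1 ≤ θ ^ L := by
          calc x1 ^ L * P (k + M) L x1 ≤ x1 ^ L * Cy (k + M) L x1 :=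
                mul_le_mul_of_nonneg_left (hY (k + M) L x1 hk' hkL hx10.le hx11).1 (by positivity)
            _ ≤ x1 ^ L * Cy (k + M) (2 * M) x1 ^ (2 ^ i) :=
                mul_le_mul_of_nonneg_left hL2 (by positivity)
            _ = θ0 ^ (2 ^ i) := by
                rw [hθ0d, mul_pow, ← pow_mul, hL1, mul_comm (2 ^ i) (2 * M)]
            _ = θ ^ L := by rw [← hθpow, ← pow_mul, hL1, mul_comm (2 ^ i) (2 * M)]
        have h2 : P (k + M) N x1 ^ q ≤ P (k + M) L x1 := by
          calc P (k + M) N x1 ^ q ≤ P (k + M) (N * q) x1 := P_pow hS hk' hx10.le hx11 N q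
            _ ≤ P (k + M) (N * q) x1 * P (k + M) (L % N) x1 := by
                apply le_mul_of_one_le_right
                · exact zero_le_one.trans ((hS (k + M) x1 hk' hx10.le hx11).2.2 _)
                · exact (hS (k + M) x1 hk' hx10.le hx11).2.2 _
            _ ≤ P (k + M) (N * q + L % N) x1 := (hS (k + M) x1 hk' hx10.le hx11).1 _ _
            _ = P (k + M) L x1 := by rw [hLe]
        rw [div_pow, mul_pow, ← pow_mul, ← pow_mul, div_le_iff₀ (by positivity)]
        -- x1^(N q) * P^q ≤ (x1^N)⁻¹ * θ^(N q)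
        have h3 : x1 ^ (N * q) * P (k + M) N x1 ^ q * x1 ^ (L % N) ≤ θ ^ (N * q) * θ ^ (L % N) := by
          calc x1 ^ (N * q) * P (k + M) N x1 ^ q * x1 ^ (L % N)
              = x1 ^ (N * q + L % N) * P (k + M) N x1 ^ q := by rw [pow_add]; ring
            _ ≤ x1 ^ (N * q + L % N) * P (k + M) L x1 :=
                mul_le_mul_of_nonneg_left h2 (by positivity)
            _ = x1 ^ L * P (k + M) L x1 := by rw [hLe]
            _ ≤ θ ^ L := h1
            _ = θ ^ (N * q) * θ ^ (L % N) := by rw [← pow_add, hLe]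
        have h4 : x1 ^ N ≤ x1 ^ (L % N) := pow_le_pow_of_le_one hx10.le hx11 hsN.le
        have h5 : θ ^ (L % N) ≤ 1 := pow_le_one₀ hθpos.le hθlt.le
        have hA : 0 ≤ x1 ^ (N * q) * P (k + M) N x1 ^ q := by
          have := (hS (k + M) x1 hk' hx10.le hx11).2.2 N
          positivity
        rw [inv_mul_eq_div, le_div_iff₀ (by positivity)]
        calc x1 ^ (N * q) * P (k + M) N x1 ^ q * x1 ^ N
            ≤ x1 ^ (N * q) * P (k + M) N x1 ^ q * x1 ^ (L % N) :=
              mul_le_mul_of_nonneg_left h4 hA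
          _ ≤ θ ^ (N * q) * θ ^ (L % N) := h3
          _ ≤ θ ^ (N * q) * 1 := mul_le_mul_of_nonneg_left h5 (by positivity)
          _ = θ ^ (N * q) := mul_one _
      exact absurd (pow_bdd hbd) (not_le.2 hgt)
    rwa [div_le_one (by positivity)] at hη
  -- upper bound for the second growth rate
  have h8 : 8 * x1 ^ 2 < 1 := by
    norm_num at hx1b
    nlinarith
  obtain ⟨C, hC⟩ := hN (k + M) x1 θ hk' hx10 h8 hθpos hθlt hPθ
  refine ⟨k + M, by omega, ?_⟩
  intro e1 e2 hr1 hr2
  have hee : e1 = e := tendsto_nhds_unique hr1 he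
  rw [hee]
  refine ⟨?_, he4⟩
  obtain ⟨hfin2, -, h3, -⟩ := hF LL (gen (k + M))
  have hle : e2 ≤ 1 / x1 := by
    apply h3 e2 (1 / x1) hr2 (by positivity)
    refine ⟨C, fun n => ?_⟩
    have := hC n (hfin2 n).toFinset (fun g hg => hU (k + M) g n hk' ((hfin2 n).mem_toFinset.1 hg))
    rwa [Nat.card_eq_card_finite_toFinset (hfin2 n)]
  have hlt : 1 / x1 < e := by
    rw [div_lt_iff₀ hx10]
    have : 1 = e * x0 := by
      rw [hx0d]
      field_simp
    rw [this]
    exact mul_lt_mul_of_pos_left hx1a hepos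
  linarith

end Pool.Agent.L7h54.GR
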