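import Pool.Agent.L7h54.GR.Defs

/-!
Project GR (MP_646035_al): statements of the parts.

Idea.  `G = F_2^3 wr Z` with the ten generators `gen k`.  A word moving to the right chooses at
each place `y` a letter of type `1` (`up`, lamp `c` at `y` is lit) or of type `0` (`lo`).  The lamp
`h` at `y` is changed for free if the letter at `y` has type `1` or the letter at `y - k` has
type `0`; the lamp `q` at `y` is changed for free if the letter at `y` has type `1` or the letter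
at `y - 1` has type `0`; otherwise the change costs one letter `th`, `tq`.  So the number of
elements of length `n` is governed by `x^N * P k N x`, the partition function of the Ising model on
the helical cylinder of circumference `k`, and `1/e_k` is the point where `x * lim P^(1/N) = 1`.
A double cover argument shows `e_{k + M} < e_k` for large `M`.
-/

namespace Pool.Agent.L7h54.GR

open Finset Filter Topology
open scoped symmDiff

/-- [GEN] (helper54). -/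
def S_GEN : Prop := ∀ k : ℕ, Subgroup.closure (gen k : Set LL) = ⊤ ∧ (gen k).card ≤ 10

/-- [LIN] (FREE, 80 lines).  `LL` is a linear group.  Take `K = LaurentSeries (ZMod 2)` or
`RatFunc (ZMod 2)`, `T` = the variable, and for a finite set `s` put `F s = ∑ y ∈ s, T^y`
(zpow, or `HahnSeries.single y 1`).  In characteristic 2 `F (s ∆ t) = F s + F t`, and
`F (sh n s) = T^n * F s`; `F` is injective (coefficients).  Send `⟨c,h,q,m⟩` to the matrix
`!![T^m, F c, F h, F q; 0,1,0,0; 0,0,1,0; 0,0,0,1]` (units: use `MonoidHom.toHomUnits`). -/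
def S_LIN : Prop := ∃ (K : Type) (_ : Field K) (φ : LL →* Matrix.GeneralLinearGroup (Fin 4) K),
  Function.Injective φ

/-- [FEK] (FREE, 120 lines).  Growth rates exist (Fekete: `|B(m+n)| ≤ |B(m)| |B(n)|`, Mathlib
`Subadditive.tendsto_lim` for `log |B(n)|`, then `exp`), and the two estimates.  Fourth claim:
eventually `|B(n)|^(1/n) < y`, so `|B(n)| ≤ y^n`; enlarge `C` for the finitely many other `n`.
Third claim: `|B(n)|^(1/n) ≤ C^(1/n) * y → y` (`C > 0` since `|B(0)| = 1`). -/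
def S_FEK : Prop := ∀ (G : Type) [Group G] (S : Finset G),
  (∀ n : ℕ, (ball S n).Finite) ∧
  (∃ e : ℝ, 1 ≤ e ∧ IsRate S e) ∧
  (∀ e y : ℝ, IsRate S e → 0 < y →
    (∃ C : ℝ, ∀ n : ℕ, (Nat.card (ball S n) : ℝ) ≤ C * y ^ n) → e ≤ y) ∧
  (∀ e y : ℝ, IsRate S e → e < y →
    ∃ C : ℝ, ∀ n : ℕ, (Nat.card (ball S n) : ℝ) ≤ C * y ^ n)

/-- [UP] (FREE, 200 lines, case analysis).  The cost function is 1-Lipschitz.  `R k 1 0` with
`a = b = 0`.  If `R k g n` (with `a`, `b`) and `s` or `s⁻¹` is a generator then `R k (g * s) (n+1)`: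
(1) `s = th`, `tq`: only the lamp at `g.m ∈ [a,b]` changes, at most one more unserved lamp.
(2) `s = up u w`, `lo k v z` or an inverse of one of these moves along the edge `e` (`e = g.m`
to the right, `e = g.m - 1` to the left) and changes `c` at `e` (only `up`), and then `h`, `q` at `e`
(`up`) or `h` at `e + k`, `q` at `e + 1` (`lo`).
 (2a) `ins g.m e` (the edge is between `0` and `g.m`; the move goes back): afterwards `e` is not
 inside, both services of `e` are available, no new unserved lamp, `|m|` drops by one: cost `+1`.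
 (2b) not inside and `a ≤ e < b`: afterwards `e` is inside: `|m|` grows by one (cost `-1`), and `e`
 loses one of its two services, so at most two new unserved lamps (`h`, `q` at `e` or `h` at
 `e + k`, `q` at `e + 1`): cost `≤ +1`; the changed lamps are among the served ones or these two.
 (2c) not inside and `e = b = g.m` or `e = a - 1 = g.m - 1`: replace `b` by `b + 1` (`a` by `a - 1`):
 cost `+2 - 1`; `e ∉ g.c` before, so after `up` `e ∈ c` and the lamps `h`, `q` at `e` are served;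
 after `lo` `e ∉ c` and the lamps `h` at `e + k`, `q` at `e + 1` are served; no service is lost.
Then induct on the word (multiply on the right; `List.reverseRecOn`). -/
def S_UP : Prop := ∀ (k : ℕ) (g : LL) (n : ℕ), 1 ≤ k → g ∈ ball (gen k) n → R k g n

/-- [CNT] (FREE, 250 lines).  Counting the elements of cost at most `n`.  For `g ∈ F` choose
`a, b`; then `1 ≤ (1/x)^n * x^(cost)`, so `F.card * x^n ≤ ∑ x^cost` over all
`(a, b, m, c, h, q)` with `-n ≤ a ≤ min 0 m`, `max 0 m ≤ b ≤ n`, `c ⊆ Ico a b`, `h ⊆ Icc a (b+k)`,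
`q ⊆ Icc a (b+1)` (injection `g ↦ (a, b, g)`).
For fixed `a, b, m, c`: `∑_{h ⊆ Icc a (b+k)} x^(uns)` `= ∏_{y ∈ Icc a (b+k)} (1 + [x if y is
unserved else 1])` (`Finset.prod_one_add` / `Finset.sum_pow_mul_eq_add_pow`), where all factors are
`≤ 2` and for `y`, `y - k` both inside the factor is `bd x c k y`; the number of the other `y` is
at most `(b - a - |m|) + 2k + 1`; same for `q` with `k = 1`.  Inside means `0 ≤ y < m` if `m ≥ 0`
and `m ≤ y < 0` if `m < 0`.  The sum over `c ⊆ Ico a b` of a function of `c ∩ (inside)` is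
`2^(b - a - |m|)` times the sum over the subsets of the inside; with `wt` translation invariant
(`∑_{s ⊆ Ico m 0} wt k m 0 x s = P k |m| x`) we get
`∑_{c,h,q} x^cost ≤ 2^(2k+4) * (8 x^2)^(b-a-|m|) * x^|m| * P k |m| x`, and the sum over
`a, b, m` is at most `2 * 2^(2k+4) / ((1-θ) (1-8x^2)^2)`. -/
def S_CNT : Prop := ∀ (k : ℕ) (x θ : ℝ), 1 ≤ k → 0 < x → 8 * x ^ 2 < 1 → 0 < θ → θ < 1 →
  (∀ N : ℕ, x ^ N * P k N x ≤ θ ^ N) →
  ∃ C : ℝ, ∀ (n : ℕ) (F : Finset LL), (∀ g ∈ F, R k g n) → (F.card : ℝ) ≤ C * (1 / x) ^ n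

/-- [LOW] (FREE, 200 lines).  Lower bound for the balls.  First, for `N : ℕ`, `s ⊆ Ico 0 N`,
`H ⊆ Ico 0 (N+k)`, `Q ⊆ Ico 0 (N+1)` such that every `y ∈ H` with `N ≤ y` has `y - k ∈ Ico 0 N`,
`y - k ∉ s` and every `y ∈ Q` with `N ≤ y` has `y - 1 ∈ Ico 0 N`, `y - 1 ∉ s`:
the element `⟨s, H, Q, N⟩` lies in the ball of radius
`N + #{y ∈ H | y < N, y ∉ s, ¬ (0 ≤ y - k ∧ y - k ∉ s)} + #{y ∈ Q | y < N, y ∉ s, ¬ (0 ≤ y - 1 ∧ y - 1 ∉ s)}`.
Induction on `N`: if `N ∈ s` the last letter is `up (N ∈ H) (N ∈ Q)`, before it the element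
`⟨s.erase N, H.erase N, Q.erase N, N⟩`; if `N ∉ s` the last letter is `lo k (N+k ∈ H) (N+1 ∈ Q)`,
before it `th` if `N ∈ H` is not served by `N - k`, `tq` if `N ∈ Q` is not served by `N - 1`.
Then sum `x^(N + unserved)` over `s ⊆ Ico 0 N`, `H ⊆ Ico k N`, `Q ⊆ Ico 1 N`: the sum over `H`, `Q` is
`∏ bd x s k y * ∏ bd x s 1 y` (`y ∈ H` is unserved iff `y ∉ s`, `y - k ∈ s`), so the total is
`x^N * P k N x`; group the (distinct) elements by their cost `j ≤ 3 N`. -/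
def S_LOW : Prop := ∀ (k : ℕ) (x : ℝ), 1 ≤ k → 0 < x → x ≤ 1 → ∀ N : ℕ,
  x ^ N * P k N x ≤ ∑ j ∈ range (3 * N + 1), (Nat.card (ball (gen k) j) : ℝ) * x ^ j

/-- [PSUP] (FREE, 100 lines).  All bonds have weight in `[1, 2]`.  Supermultiplicative: subsets of
`Ico 0 (a+b)` are unions of a subset of `Ico 0 a` and a translate by `a` of a subset of `Ico 0 b`;
drop the bonds which join the two parts (weight `≥ 1`).  The term `s = ∅` is
`2^(#Ico 1 N + #Ico k N) ≥ 2^(2N-k-1)`. -/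
def S_PSUP : Prop := ∀ (k : ℕ) (x : ℝ), 1 ≤ k → 0 ≤ x → x ≤ 1 →
  (∀ a b : ℕ, P k a x * P k b x ≤ P k (a + b) x) ∧
  (∀ N : ℕ, (4 : ℝ) ^ N / 2 ^ (k + 1) ≤ P k N x) ∧ ∀ N : ℕ, 1 ≤ P k N x

/-- [CYC] (FREE, 100 lines).  Cyclic and free boundary conditions: `s ↔ (y ↦ (y.val : ℤ) ∈ s)`;
the bond with tail `y` and head `y + j` (`j = 1, k`) does not wrap around iff `y.val + j < N`, and
these are the bonds of `P`; the other `k + 1` bonds have weight in `[1, 2]`. -/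
def S_CYC : Prop := ∀ (k N : ℕ) [NeZero N] (x : ℝ), 1 ≤ k → k < N → 0 ≤ x → x ≤ 1 →
  P k N x ≤ Cy k N x ∧ Cy k N x ≤ 2 ^ (k + 1) * P k N x

/-- [SYM] (FREE, 50 lines).  With `α = 1 + x`, `ρ = √(α/2)`, `g true = ρ`, `g false = 1`:
`W x a b = 2 * r ρ a b * g a / g b`, and `∏_y g (s y) / g (s (y + j)) = 1`
(`Equiv.addRight`, `Fintype.prod_equiv`). -/
def S_SYM : Prop := ∀ (k N : ℕ) [NeZero N] (x : ℝ), 0 ≤ x → x ≤ 1 →
  Cy k N x = 4 ^ N * D k N (Real.sqrt ((1 + x) / 2))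

/-- [COV] (FREE, 100 lines).  The circulant graph on `2N` vertices is a double cover of the one on
`N` vertices: for `σ : ZMod (2N) → Bool` put `s y = σ y.val`, `s' y = σ (y.val + N)`.  For
`y.val + j = N * Q + w`, `w < N`: the neighbour `y.val + j` of `y.val` is `w` (sheet `s`) if `Q` is even and
`w + N` (sheet `s'`) if `Q` is odd, and the neighbour of `y.val + N` is on the other sheet. -/
def S_COV : Prop := ∀ (K N : ℕ) [NeZero N] [NeZero (2 * N)] (ρ : ℝ),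
  D K (2 * N) ρ = Zt (V := ZMod N) (B := ZMod N × Bool) ρ (fun e => e.1)
    (fun e => e.1 + (if e.2 then (K : ZMod N) else 1))
    (fun e => decide (((e.1.val + (if e.2 then K else 1)) / N) % 2 = 1))

/-- Ising bond with squared weight. -/
noncomputable def gw (q : ℝ) (z : Bool) : ℝ := if z then q else 1

/-- The gain of a twisted cycle of length `n`. -/
noncomputable def dl (q : ℝ) (n : ℕ) : ℝ :=
  (1 - ((1 - q) / (1 + q)) ^ n) / (1 + ((1 - q) / (1 + q)) ^ n)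

/-- [INN] (FREE, 200 lines).  Twisting an Ising model, with a gain for each of a family of disjoint
cycles of odd twist.  Proof.  For `T : Finset V` let `χ_T s = ∏_{v ∈ T} (if s v then -1 else 1)`; then
`χ_T χ_U = χ_{T ∆ U}` and `∑_s χ_T s ≥ 0` (it is `0` or `2^|V|`).  For functions `f, F` on `V → Bool` let
`Dom f F` mean: there are `α, A : Finset V → ℝ` with `|α T| ≤ A T`, `f = ∑ α T χ_T`, `F = ∑ A T χ_T`.
`Dom` is closed under sums and products and `Dom f F → Dom (c f) (|c| F)`; `Dom f F → ∑_s f ≤ ∑_s F`.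
Put `p = (1+q)/2`, `p' = (1-q)/2`, `χ_e = χ_{ {a e} } χ_{ {b e} }`, `ε_e = ±1` (`-1` iff `t e`):
`gw q (s(a e) + s(b e) + t e) = p + ε_e p' χ_e`, so `Dom (p + ε_e p' χ_e) (p + p' χ_e)` for each bond.
For a cycle `E = E i`, `n_i = |E|`: `∏_{e ∈ E} χ_e = 1` (every vertex occurs an even number of times) and
`∏_{e ∈ E} ε_e = -1`.  Expanding and averaging over `Y ↔ E \ Y` (`χ_{E \ Y} = χ_Y`, `ε_{E \ Y} = -ε_Y`):
`∏_{e∈E} (p + ε_e p' χ_e) = 1/2 ∑_{Y ⊆ E} ε_Y (p^(n_i-|Y|) p'^|Y| - p^|Y| p'^(n_i-|Y|)) χ_Y`,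
`∏_{e∈E} (p + p' χ_e) = 1/2 ∑_{Y ⊆ E} (p^(n_i-|Y|) p'^|Y| + p^|Y| p'^(n_i-|Y|)) χ_Y`, and
`|u - v| ≤ (1 - w)/(1 + w) (u + v)` for `w ≤ u/v ≤ 1/w`, here `w = (p'/p)^(n_i) ≥ (p'/p)^n`; so
`Dom (∏_E twisted) (dl q n * ∏_E untwisted)`.  Multiply over `i ∈ I` and over the bonds of `A` in no
`E i`, and sum over `s`. -/
def S_INN : Prop := ∀ (V B ι : Type) [Fintype V] [DecidableEq V] [DecidableEq B] [DecidableEq ι]
  (a b : B → V) (t : B → Bool) (q : ℝ) (n : ℕ) (A : Finset B) (I : Finset ι)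
  (E : ι → Finset B), 0 < q → q < 1 → (∀ i ∈ I, E i ⊆ A) →
  (∀ i ∈ I, ∀ j ∈ I, i ≠ j → Disjoint (E i) (E j)) → (∀ i ∈ I, (E i).card ≤ n) →
  (∀ i ∈ I, ∀ v : V, Even (((E i).filter (fun e => a e = v)).card +
    ((E i).filter (fun e => b e = v)).card)) →
  (∀ i ∈ I, Odd ((E i).filter (fun e => t e = true)).card) →
  ∑ s : V → Bool, ∏ e ∈ A, gw q (xor (xor (s (a e)) (s (b e))) (t e)) ≤
    dl q n ^ I.card * ∑ s : V → Bool, ∏ e ∈ A, gw q (xor (s (a e)) (s (b e)))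

/-- [OUT] (FREE, 120 lines).  Finite energy.  Let `w s s' = ∏_e r(s,s) r(s',s') > 0`.  Induct on `R`:
for the block `j = R` let `F s' = w s s' * ∏_{i < R} (c₀ if s' ≠ s on all of Vi i, else 1)`, and let
`π s'` be `s'` with the values on `Vi j` replaced by `! s`.  Then `F s' ≤ ρ^(-4n) F (π s')` (at most
`4n` bonds touch `Vi j`, each changes its weight by a factor in `[ρ, 1/ρ]`; the other blocks are
disjoint from `Vi j`), the fibres of `π` have at most `2^n` elements, so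
`∑_{s'} F s' ≤ ρ^(-4n) 2^n ∑_{s' : s' ≠ s on Vi j} F s'`, and
`∑ F * (c₀ or 1) = ∑ F - (1 - c₀) ∑_{s' ≠ s on Vi j} F ≤ (1 - (1 - c₀) ρ^(4n) / 2^n) ∑ F`. -/
def S_OUT : Prop := ∀ (V B : Type) [Fintype V] [DecidableEq V] [Fintype B]
  (a b : B → V) (ρ c₀ : ℝ) (n R : ℕ) (Vi : ℕ → Finset V), 0 < ρ → ρ < 1 → 0 ≤ c₀ → c₀ ≤ 1 →
  (∀ i < R, ∀ j < R, i ≠ j → Disjoint (Vi i) (Vi j)) → (∀ i < R, (Vi i).card ≤ n) →
  (∀ v : V, (univ.filter (fun e => a e = v)).card + (univ.filter (fun e => b e = v)).card ≤ 4) →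
  ∑ s : V → Bool, ∑ s' : V → Bool,
    (∏ e : B, r ρ (s (a e)) (s (b e)) * r ρ (s' (a e)) (s' (b e))) *
      c₀ ^ ((range R).filter (fun i => ∀ v ∈ Vi i, s' v ≠ s v)).card ≤
    (1 - (1 - c₀) * (ρ ^ (4 * n) / 2 ^ n)) ^ R *
      ∑ s : V → Bool, ∑ s' : V → Bool,
        ∏ e : B, r ρ (s (a e)) (s (b e)) * r ρ (s' (a e)) (s' (b e))

/-- [KEY] from [INN], [OUT] (helper54).  With `τ v = (s' v ≠ s v)` fixed the twisted and the untwisted
sums over `s` are `ρ^(nonactive) ∏_{active} gw ρ² (..)`. -/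
def S_KEY : Prop := ∀ (V B : Type) [Fintype V] [DecidableEq V] [Fintype B] [DecidableEq B]
  (a b : B → V) (t : B → Bool) (ρ : ℝ) (n R : ℕ) (Vi : ℕ → Finset V) (E : ℕ → Finset B),
  0 < ρ → ρ < 1 →
  (∀ i < R, ∀ j < R, i ≠ j → Disjoint (Vi i) (Vi j)) → (∀ i < R, (Vi i).card ≤ n) →
  (∀ v : V, (univ.filter (fun e => a e = v)).card + (univ.filter (fun e => b e = v)).card ≤ 4) →
  (∀ i < R, ∀ e ∈ E i, a e ∈ Vi i ∧ b e ∈ Vi i) → (∀ i < R, (E i).card ≤ n) →
  (∀ i < R, ∀ v : V, Even (((E i).filter (fun e => a e = v)).card +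
    ((E i).filter (fun e => b e = v)).card)) →
  (∀ i < R, Odd ((E i).filter (fun e => t e = true)).card) →
  Zt ρ a b t ≤ (1 - (1 - dl (ρ ^ 2) n) * (ρ ^ (4 * n) / 2 ^ n)) ^ R *
    (∑ s : V → Bool, ∏ e : B, r ρ (s (a e)) (s (b e))) ^ 2

/-- [DBL] (helper54) from [KEY], [COV]: doubling. -/
def S_DBL : Prop := ∀ (K N : ℕ) [NeZero N] [NeZero (2 * N)] (ρ : ℝ), 0 < ρ → ρ < 1 →
  D K (2 * N) ρ ≤ D K N ρ ^ 2

/-- [STR] (helper54) from [KEY], [COV]: strict inequality. -/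
def S_STR : Prop := ∀ (k : ℕ) (ρ : ℝ), 1 ≤ k → 0 < ρ → ρ < 1 → ∃ c : ℝ, 0 ≤ c ∧ c < 1 ∧
  ∀ R M : ℕ, M = (k + 1) * (R + 1) → ∀ [NeZero M] [NeZero (2 * M)],
    D (k + M) (2 * M) ρ ≤ c ^ R * D k M ρ ^ 2

/-- [ONE] (helper54): for every `k` there is a larger `k'` with smaller growth rate. -/
def S_ONE : Prop := ∀ k : ℕ, 1 ≤ k → ∃ k' : ℕ, k < k' ∧ ∀ e e' : ℝ,
  IsRate (gen k) e → IsRate (gen k') e' → e' < e ∧ 4 ≤ e

end Pool.Agent.L7h54.GR
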