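import Pool.Agent.L7h54.GR.Key

namespace Pool.Agent.L7h54.GR

open Finset

theorem D_eq (K N : ℕ) [NeZero N] (ρ : ℝ) :
    ∑ s : ZMod N → Bool, ∏ e : ZMod N × Bool, r ρ (s e.1)
      (s (e.1 + (if e.2 then (K : ZMod N) else 1))) = D K N ρ := by
  unfold D
  apply Finset.sum_congr rfl
  intro s _
  rw [Fintype.prod_prod_type]
  apply Finset.prod_congr rfl
  intro y _
  rw [Fintype.prod_bool]
  simp [mul_comm]

theorem deg_le (K N : ℕ) [NeZero N] (v : ZMod N) :
    (univ.filter (fun e : ZMod N × Bool => e.1 = v)).card +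
      (univ.filter (fun e : ZMod N × Bool =>
        e.1 + (if e.2 then (K : ZMod N) else 1) = v)).card ≤ 4 := by
  have h1 : (univ.filter (fun e : ZMod N × Bool => e.1 = v)).card ≤ 2 := by
    have := Finset.card_le_card_of_injOn (s := univ.filter (fun e : ZMod N × Bool => e.1 = v))
      (t := (univ : Finset Bool)) (fun e => e.2) (fun _ _ => mem_univ _) (by
        rintro ⟨x, i⟩ hx ⟨y, j⟩ hy h
        simp only [coe_filter, mem_univ, true_and, Set.mem_setOf_eq] at hx hy
        simp only at h
        rw [hx, hy, h])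
    simpa using this
  have h2 : (univ.filter (fun e : ZMod N × Bool =>
        e.1 + (if e.2 then (K : ZMod N) else 1) = v)).card ≤ 2 := by
    have := Finset.card_le_card_of_injOn (s := univ.filter (fun e : ZMod N × Bool =>
        e.1 + (if e.2 then (K : ZMod N) else 1) = v))
      (t := (univ : Finset Bool)) (fun e => e.2) (fun _ _ => mem_univ _) (by
        rintro ⟨x, i⟩ hx ⟨y, j⟩ hy h
        simp only [coe_filter, mem_univ, true_and, Set.mem_setOf_eq] at hx hy
        simp only at h
        subst h
        have : x = y := by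
          have := hx.trans hy.symm
          exact add_right_cancel this
        rw [this])
    simpa using this
  omega

theorem s_DBL (h1 : S_KEY) (h2 : S_COV) : S_DBL := by
  intro K N _ _ ρ hρ hρ1
  rw [h2 K N ρ]
  have := h1 (ZMod N) (ZMod N × Bool) (fun e => e.1)
    (fun e => e.1 + (if e.2 then (K : ZMod N) else 1))
    (fun e => decide (((e.1.val + (if e.2 then K else 1)) / N) % 2 = 1)) ρ 0 0
    (fun _ => ∅) (fun _ => ∅) hρ hρ1 (by intro i hi; omega) (by intro i hi; omega)
    (deg_le K N) (by intro i hi; omega) (by intro i hi; omega) (by intro i hi; omega)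
    (by intro i hi; omega)
  rw [pow_zero, one_mul, D_eq K N ρ] at this
  exact this

/-- the vertices of the gadgets. -/
def vx (k M i j : ℕ) : ZMod M := ((i * (k + 1) + j : ℕ) : ZMod M)

theorem vx_val {k M R i j : ℕ} (hM : M = (k + 1) * (R + 1)) (hi : i < R) (hj : j ≤ k) :
    (vx k M i j).val = i * (k + 1) + j ∧ i * (k + 1) + j + 1 < M := by
  have h1 : i * (k + 1) + j + 1 < M := by
    rw [hM]
    have : (i + 1) * (k + 1) ≤ R * (k + 1) := Nat.mul_le_mul_right _ hi
    nlinarith
  exact ⟨by unfold vx; rw [ZMod.val_cast_of_lt (by omega)], h1⟩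

theorem vx_inj {k M R i j i' j' : ℕ} (hM : M = (k + 1) * (R + 1)) (hi : i < R) (hj : j ≤ k)
    (hi' : i' < R) (hj' : j' ≤ k) (h : vx k M i j = vx k M i' j') : i = i' ∧ j = j' := by
  have h1 := (vx_val hM hi hj).1
  have h2 := (vx_val hM hi' hj').1
  rw [h, h2] at h1
  have e1 : (i * (k + 1) + j) / (k + 1) = i := by
    rw [mul_comm, Nat.mul_add_div (by omega)]
    rw [Nat.div_eq_of_lt (by omega)]
    omega
  have e2 : (i' * (k + 1) + j') / (k + 1) = i' := by
    rw [mul_comm, Nat.mul_add_div (by omega)]
    rw [Nat.div_eq_of_lt (by omega)]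
    omega
  rw [h1] at e2
  have e3 : i = i' := by omega
  subst e3
  exact ⟨rfl, by omega⟩

/-- the bonds of the gadgets. -/
def Eg (k M i : ℕ) : Finset (ZMod M × Bool) :=
  insert (vx k M i 0, true) ((range k).image (fun j => (vx k M i j, false)))

theorem sum_Eg {k M R i : ℕ} (hM : M = (k + 1) * (R + 1)) (hi : i < R)
    (f : ZMod M × Bool → ℕ) :
    ∑ e ∈ Eg k M i, f e = f (vx k M i 0, true) + ∑ j ∈ range k, f (vx k M i j, false) := by
  unfold Eg
  rw [Finset.sum_insert, Finset.sum_image]
  · intro j hj j' hj' h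
    simp only [coe_range, Set.mem_Iio] at hj hj'
    simp only [Prod.mk.injEq, and_true] at h
    exact (vx_inj hM hi hj.le hi hj'.le h).2
  · simp

theorem s_STR (h1 : S_KEY) (h2 : S_COV) : S_STR := by
  intro k ρ hk hρ hρ1
  have hq : 0 < ρ ^ 2 := by positivity
  have hq1 : ρ ^ 2 < 1 := by nlinarith
  have hdl0 := dl_nonneg hq hq1 (k + 1)
  have hdl1 := dl_lt_one hq hq1 (k + 1)
  have hε0 : 0 < ρ ^ (4 * (k + 1)) / 2 ^ (k + 1) := by positivity
  have hε1 : ρ ^ (4 * (k + 1)) / 2 ^ (k + 1) ≤ 1 := by
    rw [div_le_one (by positivity)]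
    calc ρ ^ (4 * (k + 1)) ≤ 1 := pow_le_one₀ hρ.le hρ1.le
      _ ≤ 2 ^ (k + 1) := one_le_pow₀ (by norm_num)
  refine ⟨1 - (1 - dl (ρ ^ 2) (k + 1)) * (ρ ^ (4 * (k + 1)) / 2 ^ (k + 1)), ?_, ?_, ?_⟩
  · nlinarith
  · nlinarith
  intro R M hM _ _
  have hcast : ((k + M : ℕ) : ZMod M) = (k : ZMod M) := by
    push_cast
    simp
  have hDD : D (k + M) M ρ = D k M ρ := by
    unfold D
    rw [hcast]
  rw [h2 (k + M) M ρ, ← hDD, ← D_eq (k + M) M ρ]
  apply h1 (ZMod M) (ZMod M × Bool) (fun e => e.1)
    (fun e => e.1 + (if e.2 then ((k + M : ℕ) : ZMod M) else 1))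
    (fun e => decide (((e.1.val + (if e.2 then k + M else 1)) / M) % 2 = 1)) ρ (k + 1) R
    (fun i => (range (k + 1)).image (fun j => vx k M i j)) (fun i => Eg k M i) hρ hρ1
  · intro i hi i' hi' hne
    rw [Finset.disjoint_left]
    intro v hv hv'
    simp only [mem_image, mem_range] at hv hv'
    obtain ⟨j, hj, rfl⟩ := hv
    obtain ⟨j', hj', h⟩ := hv'
    exact hne (vx_inj hM hi' (by omega) hi (by omega) h).1.symm
  · intro i hi
    exact card_image_le.trans (by simp)
  · exact deg_le (k + M) M
  · intro i hi e he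
    unfold Eg at he
    simp only [mem_insert, mem_image, mem_range] at he
    rcases he with rfl | ⟨j, hj, rfl⟩
    · constructor
      · exact mem_image.2 ⟨0, by simp, rfl⟩
      · refine mem_image.2 ⟨k, by simp, ?_⟩
        simp only [if_true, hcast]
        unfold vx
        push_cast
        ring
    · constructor
      · exact mem_image.2 ⟨j, by simp; omega, rfl⟩
      · refine mem_image.2 ⟨j + 1, by simp; omega, ?_⟩
        simp only [Bool.false_eq_true, if_false]
        unfold vx
        push_cast
        ring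
  · intro i hi
    unfold Eg
    refine (card_insert_le _ _).trans ?_
    have := card_image_le (s := range k) (f := fun j => (vx k M i j, false))
    rw [card_range] at this
    omega
  · intro i hi v
    rw [card_filter, card_filter, ← Finset.sum_add_distrib, sum_Eg hM hi]
    simp only [if_true, hcast, Bool.false_eq_true, if_false]
    have e0 : vx k M i 0 + (k : ZMod M) = vx k M i k := by
      unfold vx
      push_cast
      ring
    have e1 : ∀ j, vx k M i j + 1 = vx k M i (j + 1) := by
      intro j
      unfold vx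
      push_cast
      ring
    rw [e0]
    simp only [e1]
    rw [Finset.sum_add_distrib]
    have s1 := Finset.sum_range_succ (fun j => if vx k M i j = v then 1 else 0) k
    have s2 := Finset.sum_range_succ' (fun j => if vx k M i j = v then 1 else 0) k
    refine ⟨∑ j ∈ range (k + 1), if vx k M i j = v then 1 else 0, ?_⟩
    omega
  · intro i hi
    have hf : (Eg k M i).filter (fun e => decide (((e.1.val + (if e.2 then k + M else 1)) / M) % 2
        = 1) = true) = {(vx k M i 0, true)} := by
      ext e
      simp only [mem_filter, decide_eq_true_eq, mem_singleton]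
      unfold Eg
      simp only [mem_insert, mem_image, mem_range]
      constructor
      · rintro ⟨rfl | ⟨j, hj, rfl⟩, h⟩
        · rfl
        · exfalso
          obtain ⟨h3, h4⟩ := vx_val hM hi hj.le
          simp only [Bool.false_eq_true, if_false, h3] at h
          rw [Nat.div_eq_of_lt h4] at h
          omega
      · rintro rfl
        refine ⟨Or.inl rfl, ?_⟩
        obtain ⟨h3, _⟩ := vx_val (j := 0) hM hi (by omega)
        obtain ⟨_, h4⟩ := vx_val (j := k) hM hi le_rfl
        simp only [if_true, h3]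
        rw [show i * (k + 1) + 0 + (k + M) = (i * (k + 1) + k) + M by ring,
          Nat.add_div_right _ (by omega), Nat.div_eq_of_lt (by omega)]
    rw [hf]
    simp

end Pool.Agent.L7h54.GR
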